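import Pool.Agent.UL5.Stmts

/-!
# Squad UL5 (MP_c7c9bf_co), row STC (helper15): the standard position of a cone
-/

set_option autoImplicit false

open MeasureTheory Set

namespace Pool.Agent.UL5.H15

open Pool.Agent.UL3 Pool.Agent.UL4 Pool.Agent.UL5

theorem continuous_up : Continuous fun q : (ℝ × ℝ) × ℝ => up q.1 q.2 := by
  unfold up
  refine (PiLp.continuous_toLp 2 _).comp (continuous_pi fun i => ?_)
  fin_cases i
  · exact continuous_fst.comp continuous_fst
  · exact continuous_snd.comp continuous_fst
  · exact continuous_snd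

theorem exists_T (n w : E3) (h : inner ℝ w n ≠ 0) :
    ∃ T : E3 ≃L[ℝ] E3, T w = up 0 1 ∧ ∀ x, inner ℝ x n = 0 → (T x) 2 = 0 := by
  set g : E3 →ₗ[ℝ] ℝ := (inner ℝ w n)⁻¹ • (innerSL ℝ n).toLinearMap with hg
  have hg1 : ∀ x, g x = (inner ℝ w n)⁻¹ * inner ℝ n x := fun x => rfl
  have hgw : g w = 1 := by
    rw [hg1, real_inner_comm, inv_mul_cancel₀]
    rwa [real_inner_comm] at h
  have hsurj : LinearMap.range g = ⊤ := by
    rw [LinearMap.range_eq_top]
    intro r
    refine ⟨r • w, ?_⟩
    rw [map_smul, hgw, smul_eq_mul, mul_one]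
  have hdim : Module.finrank ℝ (LinearMap.ker g) = Module.finrank ℝ (ℝ × ℝ) := by
    have h1 := LinearMap.finrank_range_add_finrank_ker g
    rw [hsurj, finrank_top, Module.finrank_self, finrank_euclideanSpace, Fintype.card_fin] at h1
    have h2 : Module.finrank ℝ (ℝ × ℝ) = 2 := by simp
    rw [h2]
    omega
  obtain ⟨e⟩ : Nonempty (LinearMap.ker g ≃ₗ[ℝ] (ℝ × ℝ)) :=
    FiniteDimensional.nonempty_linearEquiv_of_finrank_eq hdim
  have hP0 : ∀ x, (LinearMap.id - g.smulRight w : E3 →ₗ[ℝ] E3) x ∈ LinearMap.ker g := by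
    intro x
    rw [LinearMap.mem_ker, LinearMap.sub_apply, LinearMap.id_apply, LinearMap.smulRight_apply,
      map_sub, map_smul, hgw, smul_eq_mul, mul_one, sub_self]
  set P : E3 →ₗ[ℝ] LinearMap.ker g := LinearMap.codRestrict _ _ hP0 with hP
  have hP1 : ∀ x, ((P x : LinearMap.ker g) : E3) = x - g x • w := fun x => rfl
  let T0 : E3 ≃ₗ[ℝ] E3 :=
    { toFun := fun x => up (e (P x)) (g x)
      map_add' := by
        intro x y
        rw [map_add, map_add, map_add, up_add]
      map_smul' := by
        intro r x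
        rw [map_smul, map_smul, map_smul, RingHom.id_apply, up_smul, smul_eq_mul]
      invFun := fun y => ((e.symm (y 0, y 1) : LinearMap.ker g) : E3) + y 2 • w
      left_inv := by
        intro x
        have h1 : ((up (e (P x)) (g x)) 0, (up (e (P x)) (g x)) 1) = e (P x) := rfl
        have h2 : (up (e (P x)) (g x)) 2 = g x := rfl
        show ((e.symm ((up (e (P x)) (g x)) 0, (up (e (P x)) (g x)) 1) : LinearMap.ker g) : E3)
          + (up (e (P x)) (g x)) 2 • w = x
        rw [h1, h2, LinearEquiv.symm_apply_apply, hP1]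
        abel
      right_inv := by
        intro y
        set v : LinearMap.ker g := e.symm (y 0, y 1) with hv
        have h1 : g ((v : E3) + y 2 • w) = y 2 := by
          rw [map_add, map_smul, hgw, LinearMap.mem_ker.1 v.2, zero_add, smul_eq_mul, mul_one]
        have h2 : P ((v : E3) + y 2 • w) = v := by
          apply Subtype.ext
          rw [hP1, h1]
          abel
        show up (e (P ((v : E3) + y 2 • w))) (g ((v : E3) + y 2 • w)) = y
        rw [h1, h2, hv, LinearEquiv.apply_symm_apply]
        exact up_self y }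
  refine ⟨T0.toContinuousLinearEquiv, ?_, ?_⟩
  · show up (e (P w)) (g w) = up 0 1
    have h1 : P w = 0 := by
      apply Subtype.ext
      rw [hP1, hgw, one_smul, sub_self]
      rfl
    rw [h1, map_zero, hgw]
  · intro x hx
    show (up (e (P x)) (g x)) 2 = 0
    have h1 : (up (e (P x)) (g x)) 2 = g x := rfl
    have h2 : inner ℝ n x = 0 := by rw [real_inner_comm]; exact hx
    rw [h1, hg1, h2, mul_zero]

theorem stc : StcStmt := by
  intro C c n p hCc hCv hCn hCs hplane hp hint
  obtain ⟨T, hTw, hT2⟩ := exists_T n (p - c) hp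
  set π : E3 → ℝ × ℝ := fun x => ((T (x - c)) 0, (T (x - c)) 1) with hπ
  have hTx : ∀ x ∈ C, T (x - c) = up (π x) 0 := by
    intro x hx
    have h1 := up_self (T (x - c))
    rw [hT2 _ (hplane x hx)] at h1
    exact h1.symm
  have hcC : c ∈ C := by
    obtain ⟨x, hx⟩ := hCn
    have h1 := hCv hx (hCs x hx) (a := 1 / 2) (b := 1 / 2) (by norm_num) (by norm_num)
      (by norm_num)
    have h2 : (1 / 2 : ℝ) • x + (1 / 2 : ℝ) • ((2 : ℝ) • c - x) = c := by module
    rwa [h2] at h1
  have hseg : ∀ a b : ℝ, a + b = 1 → ∀ x ∈ C, T (a • p + b • x - c) = up (b • π x) a := by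
    intro a b hab x hx
    have h1 : a • p + b • x - c = a • (p - c) + b • (x - c) := by
      have h2 : c = (a + b) • c := by rw [hab, one_smul]
      conv_lhs => rw [h2]
      module
    rw [h1, map_add, map_smul, map_smul, hTw, hTx x hx, up_smul, up_smul, up_add, smul_zero,
      zero_add, mul_one, mul_zero, add_zero]
  have himage : (fun x => T (x - c)) '' convexHull ℝ (C ∪ {p}) = con (π '' C) := by
    have hhull : convexHull ℝ (C ∪ {p}) = convexJoin ℝ {p} C := by
      rw [union_singleton, convexHull_insert hCn, hCv.convexHull_eq]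
    rw [hhull]
    ext y
    constructor
    · rintro ⟨w, hw, rfl⟩
      obtain ⟨p', hp', x, hx, hwx⟩ := mem_convexJoin.1 hw
      rw [mem_singleton_iff] at hp'
      subst hp'
      obtain ⟨a, b, ha, hb, hab, rfl⟩ := hwx
      have h1 := hseg a b hab x hx
      show T (a • p' + b • x - c) ∈ con (π '' C)
      rw [h1]
      refine ⟨ha, ?_, π x, ⟨x, hx, rfl⟩, ?_⟩
      · rw [up_two]
        linarith
      · rw [up_two]
        have h2 : (1 : ℝ) - a = b := by linarith
        rw [h2]
        rfl
    · rintro ⟨h0, h1, q, ⟨x, hx, rfl⟩, hq⟩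
      refine ⟨y 2 • p + (1 - y 2) • x, ?_, ?_⟩
      · exact mem_convexJoin.2 ⟨p, rfl, x, hx, y 2, 1 - y 2, h0, by linarith, by ring, rfl⟩
      · show T (y 2 • p + (1 - y 2) • x - c) = y
        rw [hseg (y 2) (1 - y 2) (by ring) x hx, ← hq]
        exact up_self y
  have hπcont : Continuous π := by
    have h1 : Continuous fun x : E3 => T (x - c) := T.continuous.comp (continuous_id.sub continuous_const)
    exact ((PiLp.continuous_apply 2 _ 0).comp h1).prodMk ((PiLp.continuous_apply 2 _ 1).comp h1)
  refine ⟨T, π '' C, ⟨hCc.image hπcont, ?_, ?_, ?_⟩, himage⟩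
  · -- convex
    rintro _ ⟨x, hx, rfl⟩ _ ⟨y, hy, rfl⟩ a b ha hb hab
    refine ⟨a • x + b • y, hCv hx hy ha hb hab, ?_⟩
    have h1 : a • x + b • y - c = a • (x - c) + b • (y - c) := by
      have h2 : c = (a + b) • c := by rw [hab, one_smul]
      conv_lhs => rw [h2]
      module
    show ((T (a • x + b • y - c)) 0, (T (a • x + b • y - c)) 1) = a • π x + b • π y
    rw [h1, map_add, map_smul, map_smul]
    rfl
  · -- symmetric
    rintro _ ⟨x, hx, rfl⟩
    refine ⟨(2 : ℝ) • c - x, hCs x hx, ?_⟩
    have h1 : (2 : ℝ) • c - x - c = -(x - c) := by module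
    show ((T ((2 : ℝ) • c - x - c)) 0, (T ((2 : ℝ) • c - x - c)) 1) = -π x
    rw [h1, map_neg]
    rfl
  · -- interior
    have hne : (interior (con (π '' C))).Nonempty := by
      rw [← himage]
      have h1 : (fun x => T (x - c)) '' convexHull ℝ (C ∪ {p})
          = ((Homeomorph.subRight c).trans T.toHomeomorph) '' convexHull ℝ (C ∪ {p}) := rfl
      rw [h1, ← Homeomorph.image_interior]
      exact hint.image _
    obtain ⟨y, hy⟩ := hne
    have hyc := interior_subset hy
    have hy1 : y 2 ≠ 1 := by
      intro h1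
      obtain ⟨_, _, q, _, hq⟩ := hyc
      rw [h1, sub_self, zero_smul] at hq
      have hU : IsOpen {e : ℝ × ℝ | up e 1 ∈ interior (con (π '' C))} := by
        have hc : Continuous fun e : ℝ × ℝ => up e 1 :=
          continuous_up.comp (continuous_id.prodMk continuous_const)
        exact isOpen_interior.preimage hc
      have hU0 : {e : ℝ × ℝ | up e 1 ∈ interior (con (π '' C))} = {0} := by
        ext e
        constructor
        · intro he
          obtain ⟨_, _, q', _, hq'⟩ := interior_subset he
          rw [up_two, sub_self, zero_smul] at hq'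
          exact hq'
        · rintro rfl
          have h2 := up_self y
          rw [h1, hq] at h2
          show up 0 1 ∈ interior (con (π '' C))
          rw [h2]
          exact hy
      rw [hU0] at hU
      haveI : (nhdsWithin (0 : ℝ × ℝ) {0}ᶜ).NeBot := Module.punctured_nhds_neBot ℝ (ℝ × ℝ) 0
      exact not_isOpen_singleton (0 : ℝ × ℝ) hU
    have h1y : (1 : ℝ) - y 2 ≠ 0 := sub_ne_zero.2 (Ne.symm hy1)
    have hopen : IsOpen {q : ℝ × ℝ | up ((1 - y 2) • q) (y 2) ∈ interior (con (π '' C))} := by
      have hc : Continuous fun q : ℝ × ℝ => up ((1 - y 2) • q) (y 2) :=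
        continuous_up.comp ((continuous_const_smul (1 - y 2)).prodMk continuous_const)
      exact isOpen_interior.preimage hc
    have hsub : {q : ℝ × ℝ | up ((1 - y 2) • q) (y 2) ∈ interior (con (π '' C))} ⊆ π '' C := by
      intro q hq
      obtain ⟨_, _, q', hq', he⟩ := interior_subset hq
      rw [up_two] at he
      have he' : (1 - y 2) • q = (1 - y 2) • q' := he
      have : q = q' := smul_right_injective _ h1y he'
      rw [this]
      exact hq'
    refine ⟨(1 - y 2)⁻¹ • (y 0, y 1), interior_maximal hsub hopen ?_⟩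
    show up ((1 - y 2) • ((1 - y 2)⁻¹ • (y 0, y 1))) (y 2) ∈ interior (con (π '' C))
    rw [smul_smul, mul_inv_cancel₀ h1y, one_smul, up_self]
    exact hy

end Pool.Agent.UL5.H15
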